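import Mathlib
import Pool.Agent.H560.SQ.StmC
import Pool.Agent.H118.SQ.Sq

/-!
# The Möbius function on the sifted set around a square: assembly (helper897), after `H118/SQ/Sq`
-/

set_option autoImplicit false

namespace Pool.Agent.H897.SQ

open Polynomial
open scoped Classical
open Pool.Agent.H985.Chow (mob MD)
open Pool.Agent.H985.Chow.Asm
open Pool.Agent.H985.Par (Sft)
open Pool.Agent.H985.KP (Good2)
open Pool.Agent.H118.SQ (gdP badP mem_badP bad_cardP sum_int)
open Pool.Agent.H560.SQ (S_sqD S_siv S_sumR VV)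

lemma finsum_sft {α : Type} (p s : α → Prop) (f : α → ℝ) :
    ∑ᶠ δ ∈ {δ : α | p δ ∧ s δ}, f δ = ∑ᶠ δ ∈ {δ : α | p δ}, (if s δ then f δ else 0) := by
  rw [finsum_mem_def, finsum_mem_def]
  congr 1
  funext δ
  by_cases h1 : p δ
  · by_cases h2 : s δ
    · rw [Set.indicator_of_mem (show δ ∈ {δ : α | p δ ∧ s δ} from ⟨h1, h2⟩),
        Set.indicator_of_mem (show δ ∈ {δ : α | p δ} from h1), if_pos h2]
    · rw [Set.indicator_of_notMem (show δ ∉ {δ : α | p δ ∧ s δ} from fun h => h2 h.2),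
        Set.indicator_of_mem (show δ ∈ {δ : α | p δ} from h1), if_neg h2]
  · rw [Set.indicator_of_notMem (show δ ∉ {δ : α | p δ ∧ s δ} from fun h => h1 h.1),
      Set.indicator_of_notMem (show δ ∉ {δ : α | p δ} from h1)]

section

variable {K : Type} [Field K] [Fintype K]

lemma win_sft (L z : ℕ) (F : K[X]) :
    ∑ u : degreeLT K L, (if Sft z (F + (u : K[X]) ^ 2) then (mob (F + (u : K[X]) ^ 2) : ℝ) else 0) =
      ∑ᶠ t ∈ {t : K[X] | t.degree < (L : WithBot ℕ) ∧ Sft z (F + t ^ 2)},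
        (mob (F + t ^ 2) : ℝ) := by
  rw [finsum_sft (fun t : K[X] => t.degree < (L : WithBot ℕ)) (fun t => Sft z (F + t ^ 2))
    (fun t => (mob (F + t ^ 2) : ℝ))]
  exact (window_finsum L (fun t : K[X] => if Sft z (F + t ^ 2) then (mob (F + t ^ 2) : ℝ)
    else 0)).symm

lemma win_card (L z : ℕ) (F : K[X]) :
    |∑ u : degreeLT K L, (if Sft z (F + (u : K[X]) ^ 2) then
      (mob (F + (u : K[X]) ^ 2) : ℝ) else 0)| ≤
      ({t : K[X] | t.degree < (L : WithBot ℕ) ∧ Sft z (F + t ^ 2)}.ncard : ℝ) := by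
  have h1 : {t : K[X] | t.degree < (L : WithBot ℕ) ∧ Sft z (F + t ^ 2)} =
      (fun u : degreeLT K L => (u : K[X])) ''
        ((Finset.univ.filter (fun u : degreeLT K L => Sft z (F + (u : K[X]) ^ 2)) :
          Finset (degreeLT K L)) : Set (degreeLT K L)) := by
    ext t
    constructor
    · rintro ⟨h1, h2⟩
      exact ⟨⟨t, mem_degreeLT.mpr h1⟩, by simpa using h2, rfl⟩
    · rintro ⟨u, hu, rfl⟩
      exact ⟨mem_degreeLT.mp u.2, by simpa using hu⟩
  rw [h1, Set.ncard_image_of_injective _ Subtype.coe_injective, Set.ncard_coe_finset]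
  refine (Finset.abs_sum_le_sum_abs _ _).trans ?_
  rw [Finset.card_filter]
  push_cast
  refine Finset.sum_le_sum fun u _ => ?_
  split_ifs with h
  · exact abs_mob _
  · rw [abs_zero]

end

/-- Task SUMR. -/
theorem sumR (hD : S_sqD) (hs : S_siv) (ht : Pool.Agent.H985.KP.S_typ2)
    (hv : Pool.Agent.H560.SI.S_vl) : S_sumR := by
  intro K _ _ _ ε hε
  have hq2 : (2 : ℝ) ≤ (Fintype.card K : ℝ) := by exact_mod_cast Fintype.one_lt_card
  have hq1 : (1 : ℝ) < (Fintype.card K : ℝ) := by linarith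
  have hq0 : (0 : ℝ) < (Fintype.card K : ℝ) := by linarith
  obtain ⟨δ, E₀, hδ, d₀, hd₀⟩ := ht K 1 one_ne_zero (ε / 8) (by linarith)
  obtain ⟨η, hη0, hη1, hη2⟩ : ∃ η : ℝ, 0 < η ∧ η ≤ ε / 8 ∧ η ≤ 1 :=
    ⟨min (ε / 8) 1, lt_min (by linarith) one_pos, min_le_left _ _, min_le_right _ _⟩
  obtain ⟨Av, hAv⟩ := hs K η hη0
  obtain ⟨κ1, c, hκ1, hc, β₀, hβ₀⟩ := hD K δ E₀ hδ
  obtain ⟨c', hc', hV⟩ := hv K
  obtain ⟨j, hj⟩ := exists_pow_lt_of_lt_one (show (0 : ℝ) < ε / 8 by linarith)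
    (show 1 / (Fintype.card K : ℝ) < 1 by rw [div_lt_one hq0]; exact hq1)
  have hr0 : 0 < (Fintype.card K : ℝ) ^ (-(3 * c / 16)) := Real.rpow_pos_of_pos hq0 _
  have hr1 : (Fintype.card K : ℝ) ^ (-(3 * c / 16)) < 1 :=
    Real.rpow_lt_one_of_one_lt_of_neg hq1 (by linarith)
  have htend := tendsto_pow_const_mul_const_pow_of_abs_lt_one 1
    (show |(Fintype.card K : ℝ) ^ (-(3 * c / 16))| < 1 by rw [abs_of_pos hr0]; exact hr1)
  have ha : (0 : ℝ) < 32 * ((Av : ℝ) + 1) := by positivity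
  refine ⟨min κ1 (min 1 c) / (32 * ((Av : ℝ) + 1)),
    div_pos (lt_min hκ1 (lt_min one_pos hc)) ha, fun κ hκ hκ0 => ?_⟩
  rw [le_div_iff₀ ha] at hκ0
  have hκa : κ * (32 * ((Av : ℝ) + 1)) ≤ κ1 := hκ0.trans (min_le_left _ _)
  have hκb : κ * (32 * ((Av : ℝ) + 1)) ≤ 1 :=
    hκ0.trans ((min_le_right _ _).trans (min_le_left _ _))
  have hκc : κ * (32 * ((Av : ℝ) + 1)) ≤ c :=
    hκ0.trans ((min_le_right _ _).trans (min_le_right _ _))
  have hev : ∀ᶠ h : ℕ in Filter.atTop, (h : ℝ) ^ 1 *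
      ((Fintype.card K : ℝ) ^ (-(3 * c / 16))) ^ h < ε * c' / 16 :=
    htend.eventually (gt_mem_nhds (by positivity))
  obtain ⟨h₁, hh₁⟩ := Filter.eventually_atTop.1 hev
  obtain ⟨h₂, hh₂⟩ := exists_nat_gt (1 / κ)
  refine ⟨h₁ + h₂ + 2 * (d₀ + β₀ + j + 1) + 4 * j + 4, fun h hh A hA hhA => ?_⟩
  have hh0 : (0 : ℝ) < (h : ℝ) := by
    have : 0 < h := by omega
    exact_mod_cast this
  set z := ⌊κ * h⌋₊ with hz
  have hκh : 1 ≤ κ * h := by
    have h3 : 1 / κ ≤ (h : ℝ) := by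
      refine hh₂.le.trans ?_
      exact_mod_cast (show h₂ ≤ h by omega)
    rw [div_le_iff₀ hκ] at h3
    linarith
  have hz1 : 1 ≤ z := Nat.le_floor (by exact_mod_cast hκh)
  have hzle : (z : ℝ) ≤ κ * h := Nat.floor_le (by positivity)
  have hAz : ((Av * z : ℕ) : ℝ) * 32 ≤ κ * (32 * ((Av : ℝ) + 1)) * h := by
    push_cast
    have h3 : (Av : ℝ) * z ≤ ((Av : ℝ) + 1) * (κ * h) :=
      mul_le_mul (by linarith) hzle (by positivity) (by positivity)
    calc (Av : ℝ) * z * 32 ≤ ((Av : ℝ) + 1) * (κ * h) * 32 := by linarith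
      _ = κ * (32 * ((Av : ℝ) + 1)) * h := by ring
  have hAza : ((Av * z : ℕ) : ℝ) * 32 ≤ κ1 * h := hAz.trans (mul_le_mul_of_nonneg_right hκa hh0.le)
  have hAzb : ((Av * z : ℕ) : ℝ) * 32 ≤ h := by
    have := hAz.trans (mul_le_mul_of_nonneg_right hκb hh0.le)
    linarith
  have hAzc : ((Av * z : ℕ) : ℝ) * 32 ≤ c * h := hAz.trans (mul_le_mul_of_nonneg_right hκc hh0.le)
  have hAzn : Av * z * 32 ≤ h := by exact_mod_cast hAzb
  have hzh : (z : ℝ) ≤ h := by
    have h3 : κ ≤ 1 := by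
      have : (0 : ℝ) ≤ Av := Nat.cast_nonneg _
      nlinarith
    calc (z : ℝ) ≤ κ * h := hzle
      _ ≤ 1 * h := mul_le_mul_of_nonneg_right h3 hh0.le
      _ = h := one_mul _
  have hz0 : (0 : ℝ) < z := by exact_mod_cast hz1
  have hVV : c' / h ≤ VV K z := by
    refine le_trans ?_ (hV z hz1)
    exact div_le_div_of_nonneg_left hc'.le hz0 hzh
  have hV0 : 0 < VV K z := lt_of_lt_of_le (by positivity) hVV
  have hsmall : 2 * ((Fintype.card K : ℝ) ^ (-(3 * c / 16))) ^ h ≤ ε / 8 * VV K z := by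
    have h3 := hh₁ h (by omega)
    rw [pow_one] at h3
    have h4 : 2 * ((Fintype.card K : ℝ) ^ (-(3 * c / 16))) ^ h ≤ ε / 8 * (c' / h) := by
      rw [← mul_div_assoc, le_div_iff₀ hh0]
      nlinarith
    exact h4.trans (mul_le_mul_of_nonneg_left hVV (by linarith))
  rw [finsum_sft (fun δ : K[X] => δ.degree < (h : WithBot ℕ)) (fun δ => Sft z (A ^ 2 + δ))
    (fun δ => (mob (A ^ 2 + δ) : ℝ)), sum_int]
  set N := (h + 1) / 2 with hN
  set V := VV K z with hVdef
  have hqN : (0 : ℝ) < (Fintype.card K : ℝ) ^ N := pow_pos hq0 _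
  have hqm : (0 : ℝ) < (Fintype.card K : ℝ) ^ (h / 2) := pow_pos hq0 _
  set T : degreeLT K (h / 2) → ℝ := fun v' => ∑ v : degreeLT K N,
    (if Sft z (A ^ 2 + G (v : K[X]) (v' : K[X])) then
      (mob (A ^ 2 + G (v : K[X]) (v' : K[X])) : ℝ) else 0) with hT
  have htriv : ∀ v', |T v'| ≤ (Fintype.card K : ℝ) ^ N * (V * 2) := by
    intro v'
    have h3 : ∀ v : degreeLT K N, A ^ 2 + G (v : K[X]) (v' : K[X]) =
        (A ^ 2 + X * (v' : K[X]) ^ 2) + (v : K[X]) ^ 2 := by
      intro v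
      rw [G]
      ring
    have h4 : T v' = ∑ v : degreeLT K N,
        (if Sft z ((A ^ 2 + X * (v' : K[X]) ^ 2) + (v : K[X]) ^ 2) then
        (mob ((A ^ 2 + X * (v' : K[X]) ^ 2) + (v : K[X]) ^ 2) : ℝ) else 0) := by
      rw [hT]
      simp only [h3]
    rw [h4]
    refine (win_card N z _).trans ?_
    refine ((hAv N z (A ^ 2 + X * (v' : K[X]) ^ 2) hz1 (by omega)).2.1).trans ?_
    have h5 : (1 + η) * V * (Fintype.card K : ℝ) ^ N ≤ 2 * V * (Fintype.card K : ℝ) ^ N := by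
      refine mul_le_mul_of_nonneg_right (mul_le_mul_of_nonneg_right (by linarith) hV0.le) hqN.le
    linarith
  have hgood : ∀ v', v' ∉ badP (Good2 1 δ E₀) j (h / 2) →
      |T v'| ≤ (Fintype.card K : ℝ) ^ N * (V * (ε / 4)) := by
    intro v' hv'
    rw [mem_badP, not_not] at hv'
    obtain ⟨γ, b₁, hγ, hb, hb1, hlo, hg⟩ := hv'
    have hb0 : (v' : K[X]) ≠ 0 := by
      rw [hb]
      exact mul_ne_zero (C_ne_zero.2 hγ) hb1.ne_zero
    have hdeg : b₁.natDegree < h / 2 := by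
      have h1 := natDegree_lt_of_mem v'.2 hb0
      rwa [hb, natDegree_C_mul hγ] at h1
    have hβh : (h : ℝ) / 4 ≤ (b₁.natDegree : ℝ) := by
      have h3 : h ≤ 4 * b₁.natDegree := by omega
      have h4 : (h : ℝ) ≤ 4 * (b₁.natDegree : ℝ) := by exact_mod_cast h3
      linarith
    refine avg N (b₁.natDegree + 1) 1 (fun u hu => ?_)
      (fun x => if Sft z (A ^ 2 + G x (v' : K[X])) then
        (mob (A ^ 2 + G x (v' : K[X])) : ℝ) else 0) (V * (ε / 4)) (fun v hv => ?_)
    · rw [one_mul]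
      rw [mem_deg] at hu ⊢
      exact fun i hi => hu i (by omega)
    · have hAm : (A + v).Monic ∧ (A + v).natDegree = A.natDegree := by
        have h1 : v.degree < A.degree := by
          rw [mem_degreeLT] at hv
          refine lt_of_lt_of_le hv ?_
          rw [degree_eq_natDegree hA.ne_zero]
          exact_mod_cast (show N ≤ A.natDegree by omega)
        exact ⟨hA.add_of_left h1, natDegree_add_eq_left_of_degree_lt h1⟩
      have h4 : ∀ u : K[X], A ^ 2 + G (v + 1 * u) (v' : K[X]) =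
          ((A + v) ^ 2 + X * (C γ * b₁) ^ 2) + u ^ 2 := by
        intro u
        rw [G, hb, one_mul, CharTwo.add_sq A v, CharTwo.add_sq v u]
        ring
      have h5 : ∑ u : degreeLT K (b₁.natDegree + 1),
          (fun x => if Sft z (A ^ 2 + G x (v' : K[X])) then
            (mob (A ^ 2 + G x (v' : K[X])) : ℝ) else 0) (v + 1 * (u : K[X])) =
          ∑ᶠ t ∈ {t : K[X] | t.degree < ((b₁.natDegree + 1 : ℕ) : WithBot ℕ) ∧
            Sft z (((A + v) ^ 2 + X * (C γ * b₁) ^ 2) + t ^ 2)},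
            (mob (((A + v) ^ 2 + X * (C γ * b₁) ^ 2) + t ^ 2) : ℝ) := by
        rw [← win_sft]
        simp only [h4]
      rw [h5]
      have h6 := (hAv (b₁.natDegree + 1) z ((A + v) ^ 2 + X * (C γ * b₁) ^ 2) hz1
        (by omega)).2.2 ((Fintype.card K : ℝ) ^ ((b₁.natDegree : ℝ) + 1 - c * b₁.natDegree))
        (Real.rpow_nonneg hq0.le _) (fun D r L' hDm hDd hDL hr => by
          have hrd : r.degree < (A + v).degree := by
            refine hr.trans_le ?_
            rw [degree_eq_natDegree hDm.ne_zero, degree_eq_natDegree hAm.1.ne_zero, hAm.2]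
            exact_mod_cast (show D.natDegree ≤ A.natDegree by omega)
          have h7 := hβ₀ b₁.natDegree (by omega) A.natDegree L' γ b₁ (A + v + r) D (by omega) hγ
            ⟨hb1, rfl⟩ hg (hAm.1.add_of_left hrd)
            (by rw [natDegree_add_eq_left_of_degree_lt hrd, hAm.2]) hDm
            (by
              have h8 : (D.natDegree : ℝ) ≤ ((Av * z : ℕ) : ℝ) := by exact_mod_cast hDd
              nlinarith) hDL
          have h9 : ∀ w : K[X], (A + v) ^ 2 + X * (C γ * b₁) ^ 2 + (r + D * w) ^ 2 =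
              (A + v + r + D * w) ^ 2 + X * (C γ * b₁) ^ 2 := by
            intro w
            rw [add_assoc (A + v) r (D * w), CharTwo.add_sq (A + v) (r + D * w)]
            ring
          simp only [h9]
          exact h7)
      refine h6.trans ?_
      have hqL : (0 : ℝ) < (Fintype.card K : ℝ) ^ (b₁.natDegree + 1) := pow_pos hq0 _
      have h10 : (Fintype.card K : ℝ) ^ ((b₁.natDegree : ℝ) + 1 - c * b₁.natDegree) =
          (Fintype.card K : ℝ) ^ (b₁.natDegree + 1) *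
            (Fintype.card K : ℝ) ^ (-(c * b₁.natDegree)) := by
        rw [← Real.rpow_natCast, ← Real.rpow_add hq0]
        congr 1
        push_cast
        ring
      have h11 : (2 * (Fintype.card K : ℝ)) ^ (Av * z) ≤ (Fintype.card K : ℝ) ^ (c * h / 16) := by
        calc (2 * (Fintype.card K : ℝ)) ^ (Av * z)
            ≤ ((Fintype.card K : ℝ) * (Fintype.card K : ℝ)) ^ (Av * z) :=
              pow_le_pow_left₀ (by positivity) (mul_le_mul_of_nonneg_right hq2 hq0.le) _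
          _ = (Fintype.card K : ℝ) ^ ((2 * (Av * z) : ℕ) : ℝ) := by
              rw [Real.rpow_natCast, ← sq, ← pow_mul]
          _ ≤ (Fintype.card K : ℝ) ^ (c * h / 16) := by
              refine Real.rpow_le_rpow_of_exponent_le hq1.le ?_
              rw [Nat.cast_mul, Nat.cast_two]
              linarith
      have h12 : (Fintype.card K : ℝ) ^ (-(c * b₁.natDegree)) ≤
          (Fintype.card K : ℝ) ^ (-(c * h / 4)) := by
        refine Real.rpow_le_rpow_of_exponent_le hq1.le ?_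
        have : c * (h / 4) ≤ c * b₁.natDegree := mul_le_mul_of_nonneg_left hβh hc.le
        linarith
      have h13 : (Fintype.card K : ℝ) ^ (c * h / 16) * (Fintype.card K : ℝ) ^ (-(c * h / 4)) =
          ((Fintype.card K : ℝ) ^ (-(3 * c / 16))) ^ h := by
        rw [← Real.rpow_add hq0, ← Real.rpow_natCast ((Fintype.card K : ℝ) ^ (-(3 * c / 16))) h,
          ← Real.rpow_mul hq0.le]
        congr 1
        ring
      have h14 : (2 * (Fintype.card K : ℝ)) ^ (Av * z) *
          (Fintype.card K : ℝ) ^ (-(c * b₁.natDegree)) ≤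
          ((Fintype.card K : ℝ) ^ (-(3 * c / 16))) ^ h := by
        rw [← h13]
        exact mul_le_mul h11 h12 (Real.rpow_nonneg hq0.le _) (Real.rpow_nonneg hq0.le _)
      have h15 : 2 * ((2 * (Fintype.card K : ℝ)) ^ (Av * z) *
          (Fintype.card K : ℝ) ^ (-(c * b₁.natDegree))) ≤ ε / 8 * V :=
        (mul_le_mul_of_nonneg_left h14 (by norm_num)).trans hsmall
      have h16 : η * V ≤ ε / 8 * V := mul_le_mul_of_nonneg_right hη1 hV0.le
      rw [h10]
      calc η * V * (Fintype.card K : ℝ) ^ (b₁.natDegree + 1) +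
          2 * (2 * (Fintype.card K : ℝ)) ^ (Av * z) * ((Fintype.card K : ℝ) ^ (b₁.natDegree + 1) *
            (Fintype.card K : ℝ) ^ (-(c * b₁.natDegree)))
          = (η * V + 2 * ((2 * (Fintype.card K : ℝ)) ^ (Av * z) *
            (Fintype.card K : ℝ) ^ (-(c * b₁.natDegree)))) *
            (Fintype.card K : ℝ) ^ (b₁.natDegree + 1) := by ring
        _ ≤ (ε / 8 * V + ε / 8 * V) * (Fintype.card K : ℝ) ^ (b₁.natDegree + 1) :=
            mul_le_mul_of_nonneg_right (add_le_add h16 h15) hqL.le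
        _ = (Fintype.card K : ℝ) ^ (b₁.natDegree + 1) * (V * (ε / 4)) := by ring
  have hbad := bad_cardP (K := K) (Good2 1 δ E₀) j (h / 2) (d₀ + β₀) (ε / 2) (by linarith)
    (by linarith) (fun d hd => by
      have := hd₀ d (by omega)
      linarith) (by omega)
  have hall : ∀ v', |T v'| ≤ (Fintype.card K : ℝ) ^ N * (V *
      (2 * (if v' ∈ badP (Good2 1 δ E₀) j (h / 2) then 1 else 0) + ε / 4)) := by
    intro v'
    split_ifs with h'
    · refine (htriv v').trans ?_
      refine mul_le_mul_of_nonneg_left (mul_le_mul_of_nonneg_left ?_ hV0.le) hqN.le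
      linarith
    · rw [mul_zero, zero_add]
      exact hgood v' h'
  refine (Finset.abs_sum_le_sum_abs _ _).trans ?_
  refine (Finset.sum_le_sum (fun v' _ => hall v')).trans ?_
  rw [← Finset.mul_sum, ← Finset.mul_sum, Finset.sum_add_distrib, ← Finset.mul_sum,
    Finset.sum_boole, Finset.sum_const,
    Finset.card_univ, card_deg, nsmul_eq_mul, Finset.filter_mem_eq_inter, Finset.univ_inter]
  push_cast
  have hnn : (Fintype.card K : ℝ) ^ h =
      (Fintype.card K : ℝ) ^ N * (Fintype.card K : ℝ) ^ (h / 2) := by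
    rw [← pow_add]
    congr 1
    omega
  rw [hnn]
  have h8 : 0 < ε * (Fintype.card K : ℝ) ^ (h / 2) := by positivity
  have h9 : 2 * ((badP (K := K) (Good2 1 δ E₀) j (h / 2)).card : ℝ) +
      (Fintype.card K : ℝ) ^ (h / 2) * (ε / 4) ≤ ε * (Fintype.card K : ℝ) ^ (h / 2) := by
    linarith
  calc (Fintype.card K : ℝ) ^ N * (V * (2 * ((badP (K := K) (Good2 1 δ E₀) j (h / 2)).card : ℝ) +
        (Fintype.card K : ℝ) ^ (h / 2) * (ε / 4)))
      ≤ (Fintype.card K : ℝ) ^ N * (V * (ε * (Fintype.card K : ℝ) ^ (h / 2))) :=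
        mul_le_mul_of_nonneg_left (mul_le_mul_of_nonneg_left h9 hV0.le) hqN.le
    _ = _ := by ring

end Pool.Agent.H897.SQ
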